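import Pool.Agent.W5h93.WC.Defs
import Pool.Agent.W5h68.BT.ClassDefs

/-!
# Weight complexes and the sign conjecture: definitions
-/

set_option autoImplicit false

open CategoryTheory Limits MonoidalCategory AlgebraicGeometry Pool.Agent.Y116.UV
  Pool.Agent.W5h68.SP Pool.Agent.W5h93.WC

universe v u v' u'

namespace Pool.Agent.W5h68.CP

variable {𝒜 : Type u} [Category.{v} 𝒜] [Preadditive 𝒜] {𝒢 : Type u'} [Category.{v'} 𝒢]
  [Preadditive 𝒢]

/-- **The sign conjecture** `C⁺` for the motive `M` with the homology groups `H_j(M)`: there is an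
endomorphism `π` of `M` (a correspondence) which induces the identity on `H_j(M)` for even `j` and zero
for odd `j`. -/
def Sign (H : ℤ → 𝒜 ⥤ 𝒢) (M : 𝒜) : Prop :=
  ∃ π : M ⟶ M, (∀ j, Even j → (H j).map π = 𝟙 _) ∧ ∀ j, Odd j → (H j).map π = 0

/-- The functors `H j` are a homology theory on the tensor category `𝒜` with the Tate objects `T l`:
they are additive, the homology of the unit object vanishes in the odd degrees, and
`H_j(M ⊗ T l) = H_{j - 2 l}(M)`, naturally in `M`. -/
structure IsSignHomology [MonoidalCategory 𝒜] (T : ℤ → 𝒜) (H : ℤ → 𝒜 ⥤ 𝒢) : Prop where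
  additive : ∀ j, (H j).Additive
  unit : ∀ j, Odd j → IsZero ((H j).obj (T 0))
  twist : ∀ l j, Nonempty (tensorRight (T l) ⋙ H j ≅ H (j - 2 * l))

/-- For the finite flat coverings `Spec A[s] / (s ^ d - u) → Spec A` of degree `d > 0`, `u` a unit, the
weight complex of the base is a direct factor of the weight complex of the covering (rational
coefficients: the composition of the flat pull-back and the push-forward is the multiplication by `d`). -/
def HasCoverings {k : Type} [Field k] [HasZeroObject 𝒜] [HasBinaryBiproducts 𝒜]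
    (W : Sch k → HomotopyCategory 𝒜 (ComplexShape.up ℤ)) : Prop :=
  ∀ (A : Type) [CommRing A] [Algebra k A] [Algebra.FiniteType k A] (d : ℕ) (u : A), 0 < d →
    IsUnit u → ∃ (s : W (aff k A) ⟶ W (aff k (Cyc A d u))) (r : W (aff k (Cyc A d u)) ⟶ W (aff k A)),
      s ≫ r = 𝟙 _

end Pool.Agent.W5h68.CP
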