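import Pool.Agent.W5h93.WC.Main
import Pool.Agent.Z125.UN.Dim
import Pool.Agent.W5h68.BT.Cls
import Pool.Agent.W5h68.CP.Defs

/-!
# Weight complexes of the schemes of the class `Built`
-/

set_option autoImplicit false

open CategoryTheory Limits MonoidalCategory AlgebraicGeometry Pool.Agent.Y116.UV Pool.Agent.Z125.UN
  Pool.Agent.W5h68.SP Pool.Agent.W5h68.PJ Pool.Agent.W5h68.BT Pool.Agent.W5h93.WC

universe v u v' u'

namespace Pool.Agent.W5h68.CP

section gen

variable {k : Type} [Field k] {𝒜 : Type u} [Category.{v} 𝒜] [Preadditive 𝒜] [HasZeroObject 𝒜]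
  [HasBinaryBiproducts 𝒜] [MonoidalCategory 𝒜] [MonoidalPreadditive 𝒜] {V : Cls 𝒜}
  {T : ℤ → 𝒜} {W : Sch k → HomotopyCategory 𝒜 (ComplexShape.up ℤ)}

/-- **The general statement**, for a class of motives closed under sums, summands and Tate twists. -/
theorem built_null (hT : ∀ (j : ℤ) (A : 𝒜), V.prop A → V.prop (A ⊗ T j)) (h0 : V.prop (T 0))
    (hW : IsWeightComplex T W) (hc : HasCoverings W) {N : ℕ}
    (hP : ∀ (A : Type) [CommRing A] [Algebra k A], IsProd k N A → Null V.prop (W (aff k A)).as)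
    {X : Sch k} (h : Built k N X) : Null V.prop (W X).as := by
  have hB := bnd_wc hT h0 hW
  have hQ := Cl.of_bnd hB
  have hQ' : ClB k fun A => Null V.prop (W (aff k A)).as :=
    { iso := hQ.iso
      total := hQ.total
      opened := hQ.opened
      closed := hQ.closed
      poly := hQ.poly
      cyc := fun {A} _ _ _ d u hd hu h => by
        obtain ⟨s, r, hs⟩ := hc A d u hd hu
        exact Null.of_retract s r hs h
      torus := fun {A} _ _ _ h => hB.torus A h }
  induction h with
  | aff h => exact aff_of_prod hQ' hP h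
  | iso hX e h ih => exact hB.iso hX ⟨e⟩ ih
  | total i j hX ht hZ hU ih1 ih2 => exact hB.total i j hX ht ih1 ih2
  | opened i j hX ht hZ h ih1 ih2 => exact hB.opened i j hX ht ih1 ih2
  | closed i j hX ht h hU ih1 ih2 => exact hB.closed i j hX ht ih1 ih2

end gen

section sign

variable {𝒜 : Type u} [Category.{v} 𝒜] [Preadditive 𝒜] [HasZeroObject 𝒜] [HasBinaryBiproducts 𝒜]
  [MonoidalCategory 𝒜] {𝒢 : Type u'} [Category.{v'} 𝒢] [Preadditive 𝒢] {T : ℤ → 𝒜}
  {H : ℤ → 𝒜 ⥤ 𝒢}

lemma sign_unit (hH : IsSignHomology T H) : Sign H (T 0) :=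
  ⟨𝟙 _, fun j _ => (H j).map_id _, fun j hj => (hH.unit j hj).eq_of_src _ _⟩

lemma sign_twist (hH : IsSignHomology T H) (l : ℤ) (M : 𝒜) (h : Sign H M) : Sign H (M ⊗ T l) := by
  obtain ⟨π, h1, h2⟩ := h
  refine ⟨(tensorRight (T l)).map π, fun j hj => ?_, fun j hj => ?_⟩
  · obtain ⟨e⟩ := hH.twist l j
    have h3 : Even (j - 2 * l) := hj.sub (even_two_mul l)
    have h4 := e.hom.naturality π
    rw [h1 _ h3, Category.comp_id] at h4
    have h5 : (tensorRight (T l) ⋙ H j).map π = (tensorRight (T l) ⋙ H j).map (𝟙 M) := by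
      rw [← cancel_mono (e.hom.app M), h4, (tensorRight (T l) ⋙ H j).map_id, Category.id_comp]
    rw [(tensorRight (T l) ⋙ H j).map_id] at h5
    exact h5
  · obtain ⟨e⟩ := hH.twist l j
    have h3 : Odd (j - 2 * l) := hj.sub_even (even_two_mul l)
    have h4 := e.hom.naturality π
    rw [h2 _ h3, comp_zero] at h4
    have h5 : (tensorRight (T l) ⋙ H j).map π = 0 := by
      rw [← cancel_mono (e.hom.app M), h4, zero_comp]
    exact h5

/-- the class of the motives which satisfy the sign conjecture -/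
def signCls (hH : IsSignHomology T H) : Cls 𝒜 where
  prop := Sign H
  nonempty := ⟨T 0, sign_unit hH⟩
  sum M N := by
    rintro ⟨π, h1, h2⟩ ⟨ρ, h3, h4⟩
    have hadd : ∀ j, (H j).map (biprod.map π ρ) = (H j).map biprod.fst ≫ (H j).map π ≫
        (H j).map biprod.inl + (H j).map biprod.snd ≫ (H j).map ρ ≫ (H j).map biprod.inr := by
      intro j
      have := hH.additive j
      rw [← (H j).map_comp, ← (H j).map_comp, ← (H j).map_comp, ← (H j).map_comp,
        ← (H j).map_add]
      congr 1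
      ext <;> simp
    refine ⟨biprod.map π ρ, fun j hj => ?_, fun j hj => ?_⟩
    · have := hH.additive j
      rw [hadd, h1 j hj, h3 j hj, Category.id_comp, Category.id_comp, ← (H j).map_comp,
        ← (H j).map_comp, ← (H j).map_add, biprod.total, (H j).map_id]
    · rw [hadd, h2 j hj, h4 j hj, zero_comp, zero_comp, comp_zero, comp_zero, add_zero]
  retract M N s r hs := by
    rintro ⟨π, h1, h2⟩
    refine ⟨s ≫ π ≫ r, fun j hj => ?_, fun j hj => ?_⟩
    · rw [(H j).map_comp, (H j).map_comp, h1 j hj, Category.id_comp, ← (H j).map_comp, hs,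
        (H j).map_id]
    · rw [(H j).map_comp, (H j).map_comp, h2 j hj, zero_comp, comp_zero]

end sign

end Pool.Agent.W5h68.CP
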